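import Pool.Agent.N658.TP.Stm2

/-! # The truncated expansion is multiplicatively close to the exponential (`StmSliceNorm`) -/

set_option autoImplicit false

open scoped BigOperators

noncomputable section

namespace Pool.Agent.N767.TP

open Pool.Agent.TH235 Pool.Agent.TH235.PP Pool.Agent.TH235.PQ

/-! ### `KA_bound` for a ring norm given as a function -/

section abs

variable {R : Type*} [Ring R]

theorem ka_abs (c : RingNorm R) (hc1 : c 1 = 1) {N : ℕ} (adj : Fin N → Fin N → Prop) (K : ℕ)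
    (hsym : ∀ b b', adj b b' → adj b' b) (hirr : ∀ b, ¬ adj b b) (hK1 : 1 ≤ K)
    (hK : ∀ b, open Classical in (Finset.univ.filter fun b' => adj b b').card ≤ K) (q r : ℕ)
    (p ν : R → ℝ) (hp0 : ∀ a, 0 ≤ p a) (hpadd : ∀ a b, p (a + b) ≤ p a + p b)
    (hpc : ∀ a, p a ≤ 4 / 3 * c a) (hν0 : ν 0 = 0) (hνadd : ∀ a b, ν (a + b) ≤ ν a + ν b)
    (hνneg : ∀ a, ν (-a) = ν a)
    (hνp : ∀ z : Fin (tm q) → R, ν (op z) ≤ 1 * ∏ t, p (z t))
    (y : Fin N → R) (y0 : ℝ) (hy0 : 0 ≤ y0) (hy1 : y0 ≤ 1 / 80) (hy : ∀ b, c (y b) ≤ y0)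
    (hG : p (1 + ∑ b, y b) ≤ 1) (hN : N * y0 ≤ 1 / 4) (hM : 2 * tm q * (N * y0) ^ 2 ≤ 1)
    (hr : N * Real.exp (100 * (K + 1) ^ 2 * (1 + tm q * y0) - r / (10 * K * (K + 1) ^ 2)) ≤ 1) :
    ν (KA adj q y r - (op fun b => 1 + y b) ^ tm q) ≤
      6 * (N * Real.exp (100 * (K + 1) ^ 2 * (1 + tm q * y0) - r / (10 * K * (K + 1) ^ 2))) ∧
    p ((op fun b => 1 + y b) - (1 + ∑ b, y b)) ≤ 4 / 3 * (N * y0) ^ 2 := by
  let _ : NormedRing R := c.toNormedRing
  have _ : NormOneClass R := ⟨hc1⟩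
  constructor
  · have h := (KA_bound (comb pair) adj K hsym hirr hK1 hK q r p ν hp0 hpadd hpc hν0 hνadd hνneg
      1 zero_le_one hνp y y0 hy0 hy1 hy hG hN hM hr).2
    rw [one_mul] at h
    exact h
  · refine (hpc _).trans (mul_le_mul_of_nonneg_left ?_ (by norm_num))
    exact ((norm_op_sub y y0 hy hy0).2).trans (pow_bd hy0 (by linarith))

end abs

/-! ### The flow -/

section cst

variable {A : Type*} [CStarAlgebra A]

/-- `exp (s H)` -/
def U (H : A) (s : ℝ) : A := NormedSpace.exp ((s : ℂ) • H)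

lemma U_zero (H : A) : U H 0 = 1 := by simp [U]

lemma U_add (H : A) (s t : ℝ) : U H (s + t) = U H s * U H t := by
  let +nondep : NormedAlgebra ℚ A := .restrictScalars ℚ ℂ A
  unfold U
  push_cast
  rw [add_smul]
  apply NormedSpace.exp_add_of_commute
  exact ((Commute.refl H).smul_left _).smul_right _

lemma U_neg_mul (H : A) (s : ℝ) : U H (-s) * U H s = 1 := by
  rw [← U_add, neg_add_cancel, U_zero]

lemma U_mul_neg (H : A) (s : ℝ) : U H s * U H (-s) = 1 := by
  rw [← U_add, add_neg_cancel, U_zero]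

lemma U_comm (H x : A) (hx : Commute H x) (s : ℝ) : Commute (U H s) x := by
  let +nondep : NormedAlgebra ℚ A := .restrictScalars ℚ ℂ A
  unfold U
  exact (hx.smul_left _).exp_left

/-- conjugation by the flow -/
def cj (H : A) (s : ℝ) (z : A) : A := U H (-s) * z * U H s

lemma cj_zero (H z : A) : cj H 0 z = z := by simp [cj, U_zero]

lemma cj_add (H : A) (s : ℝ) (z w : A) : cj H s (z + w) = cj H s z + cj H s w := by
  simp [cj, mul_add, add_mul]

lemma cj_neg (H : A) (s : ℝ) (z : A) : cj H s (-z) = -cj H s z := by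
  simp [cj]

lemma cj_z (H : A) (s : ℝ) : cj H s (0 : A) = 0 := by
  simp [cj]

lemma cj_one (H : A) (s : ℝ) : cj H s (1 : A) = 1 := by
  simp [cj, U_neg_mul]

lemma cj_mul (H : A) (s : ℝ) (z w : A) : cj H s (z * w) = cj H s z * cj H s w := by
  unfold cj
  calc U H (-s) * (z * w) * U H s = U H (-s) * z * (1 * (w * U H s)) := by
        simp only [mul_assoc, one_mul]
    _ = U H (-s) * z * ((U H s * U H (-s)) * (w * U H s)) := by rw [U_mul_neg]
    _ = _ := by simp only [mul_assoc]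

lemma cj_of_comm (H x : A) (hx : Commute H x) (s : ℝ) : cj H s x = x := by
  unfold cj
  rw [(U_comm H x hx (-s)).eq, mul_assoc, U_neg_mul, mul_one]

/-- the maximum over the conjugations by the flow at the times `0, k, ..., M k` -/
def cn (H : A) (k : ℝ) (M : ℕ) (z : A) : ℝ :=
  (Finset.range (M + 1)).sup' ⟨0, by simp⟩ fun t => ‖cj H (t * k) z‖

lemma le_cn (H : A) (k : ℝ) (M : ℕ) (z : A) (t : ℕ) (ht : t ≤ M) :
    ‖cj H (t * k) z‖ ≤ cn H k M z :=
  Finset.le_sup' (f := fun t : ℕ => ‖cj H (t * k) z‖) (by simp; omega)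

lemma cn_le (H : A) (k : ℝ) (M : ℕ) (z : A) (a : ℝ) (h : ∀ t : ℕ, t ≤ M → ‖cj H (t * k) z‖ ≤ a) :
    cn H k M z ≤ a := by
  apply Finset.sup'_le
  intro t ht
  exact h t (by simp at ht; omega)

lemma norm_le_cn (H : A) (k : ℝ) (M : ℕ) (z : A) : ‖z‖ ≤ cn H k M z := by
  have := le_cn H k M z 0 (Nat.zero_le _)
  simpa [cj_zero] using this

lemma cn_nonneg (H : A) (k : ℝ) (M : ℕ) (z : A) : 0 ≤ cn H k M z :=
  (norm_nonneg _).trans (norm_le_cn H k M z)

lemma cn_add (H : A) (k : ℝ) (M : ℕ) (z w : A) :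
    cn H k M (z + w) ≤ cn H k M z + cn H k M w := by
  apply cn_le
  intro t ht
  rw [cj_add]
  exact (norm_add_le _ _).trans (add_le_add (le_cn H k M z t ht) (le_cn H k M w t ht))

lemma cn_mul (H : A) (k : ℝ) (M : ℕ) (z w : A) :
    cn H k M (z * w) ≤ cn H k M z * cn H k M w := by
  apply cn_le
  intro t ht
  rw [cj_mul]
  exact (norm_mul_le _ _).trans (mul_le_mul (le_cn H k M z t ht) (le_cn H k M w t ht)
    (norm_nonneg _) (cn_nonneg _ _ _ _))

lemma cn_neg (H : A) (k : ℝ) (M : ℕ) (z : A) : cn H k M (-z) = cn H k M z := by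
  unfold cn
  simp [cj_neg]

lemma cn_zero (H : A) (k : ℝ) (M : ℕ) : cn H k M 0 = 0 := by
  apply le_antisymm
  · apply cn_le
    intro t _
    simp [cj_z]
  · exact cn_nonneg _ _ _ _

lemma cn_of_comm (H x : A) (hx : Commute H x) (k : ℝ) (M : ℕ) : cn H k M x = ‖x‖ := by
  apply le_antisymm
  · apply cn_le
    intro t _
    rw [cj_of_comm H x hx]
  · exact norm_le_cn _ _ _ _

/-- as a ring norm -/
def cR (H : A) (k : ℝ) (M : ℕ) : RingNorm A where
  toFun := cn H k M
  map_zero' := cn_zero H k M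
  add_le' := cn_add H k M
  neg' := cn_neg H k M
  mul_le' := cn_mul H k M
  eq_zero_of_map_eq_zero' := by
    intro x hx
    have := norm_le_cn H k M x
    have h2 : ‖x‖ ≤ 0 := this.trans (le_of_eq hx)
    exact norm_le_zero_iff.1 h2

/-! ### Spectral bounds -/

lemma spec_small [Nontrivial A] (B : A) (hB : IsSelfAdjoint B) (β : ℝ) (hβ : β ≤ 1 / 8)
    (hn : ‖B‖ ≤ β) :
    ‖NormedSpace.exp B‖ ≤ 4 / 3 ∧ ‖(1 - B) * NormedSpace.exp B‖ ≤ 1 ∧
      ‖(1 - B) * NormedSpace.exp B - 1‖ ≤ β ^ 2 := by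
  have hβ0 : 0 ≤ β := (norm_nonneg _).trans hn
  have hs : ∀ x ∈ spectrum ℝ B, |x| ≤ β := by
    intro x hx
    have := spectrum.norm_le_norm_of_mem hx
    rw [Real.norm_eq_abs] at this
    exact this.trans hn
  have he : NormedSpace.exp B = cfc Real.exp B := (CFC.real_exp_eq_normedSpace_exp hB).symm
  have h1 : (1 - B) * NormedSpace.exp B = cfc (fun x : ℝ => (1 - x) * Real.exp x) B := by
    rw [he, cfc_mul (fun x : ℝ => 1 - x) Real.exp B (by fun_prop) (by fun_prop)]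
    congr 1
    rw [cfc_sub (fun _ : ℝ => (1 : ℝ)) (fun x : ℝ => x) B (by fun_prop) (by fun_prop),
      cfc_const_one ℝ B, cfc_id' ℝ B]
  have h2 : (1 - B) * NormedSpace.exp B - 1 = cfc (fun x : ℝ => (1 - x) * Real.exp x - 1) B := by
    rw [h1, cfc_sub (fun x : ℝ => (1 - x) * Real.exp x) (fun _ : ℝ => (1 : ℝ)) B (by fun_prop)
      (by fun_prop), cfc_const_one ℝ B]
  have key : ∀ x : ℝ, |x| ≤ β → 0 ≤ (1 - x) * Real.exp x ∧ (1 - x) * Real.exp x ≤ 1 ∧
      |(1 - x) * Real.exp x - 1| ≤ β ^ 2 := by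
    intro x hx
    have hx1 : |x| ≤ 1 := by linarith
    have hxa := abs_le.1 hx
    have h3 := Real.abs_exp_sub_one_sub_id_le hx1
    have h4 := abs_le.1 h3
    have h5 : (1 - x) * Real.exp x ≤ 1 := by
      have h6 : 1 - x ≤ Real.exp (-x) := by linarith [Real.add_one_le_exp (-x)]
      calc (1 - x) * Real.exp x ≤ Real.exp (-x) * Real.exp x :=
            mul_le_mul_of_nonneg_right h6 (Real.exp_pos _).le
        _ = 1 := by rw [← Real.exp_add]; simp
    refine ⟨mul_nonneg (by linarith) (Real.exp_pos _).le, h5, ?_⟩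
    rw [abs_le]
    constructor
    · have h7 : 1 + x ≤ Real.exp x := by linarith [Real.add_one_le_exp x]
      have h8 : (1 - x) * (1 + x) ≤ (1 - x) * Real.exp x :=
        mul_le_mul_of_nonneg_left h7 (by linarith)
      have h9 : x ^ 2 ≤ β ^ 2 := sq_le_sq' hxa.1 hxa.2
      nlinarith
    · nlinarith [sq_nonneg β]
  refine ⟨?_, ?_, ?_⟩
  · rw [he]
    apply norm_cfc_le (by norm_num)
    intro x hx
    rw [Real.norm_eq_abs, abs_of_pos (Real.exp_pos _)]
    have h3 := abs_le.1 (hs x hx)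
    have h5 := (key x (hs x hx)).2.1
    have h6 : (7 / 8 : ℝ) ≤ 1 - x := by linarith
    nlinarith [Real.exp_pos x]
  · rw [h1]
    apply norm_cfc_le zero_le_one
    intro x hx
    obtain ⟨k1, k2, k3⟩ := key x (hs x hx)
    rw [Real.norm_eq_abs, abs_of_nonneg k1]
    exact k2
  · rw [h2]
    apply norm_cfc_le (by positivity)
    intro x hx
    obtain ⟨k1, k2, k3⟩ := key x (hs x hx)
    rw [Real.norm_eq_abs]
    exact k3

/-! ### Products conjugated by the flow -/

lemma U_step (H a X : A) (s k w : ℝ) :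
    U H (-s) * (a * X) * U H w = cj H s (a * U H k) * (U H (-(s + k)) * X * U H w) := by
  have h1 : U H k * (U H s * (U H (-(s + k)) * (X * U H w))) = X * U H w := by
    rw [← mul_assoc, ← mul_assoc, ← U_add, ← U_add]
    have : k + s + -(s + k) = 0 := by ring
    rw [this, U_zero, one_mul]
  unfold cj
  simp only [mul_assoc]
  rw [h1]

lemma U_natmul (H : A) (k : ℝ) (n : ℕ) : U H (n * k) = U H k ^ n := by
  induction n with
  | zero => simp [U_zero]
  | succ n ih =>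
    rw [pow_succ, ← ih, ← U_add]
    congr 1
    push_cast
    ring

lemma conj_op [Nontrivial A] (H : A) (k : ℝ) (M : ℕ) : ∀ (n s : ℕ) (z : Fin n → A), s + n ≤ M →
    ‖U H (-(s * k)) * op z * U H (((s + n : ℕ) : ℝ) * k)‖ ≤ ∏ t, cn H k M (z t * U H k) := by
  intro n
  induction n with
  | zero =>
    intro s z _
    rw [op_zero, mul_one]
    simp [U_neg_mul]
  | succ n ih =>
    intro s z hs
    rw [op_succ, U_step H (z 0) _ (s * k) k, Fin.prod_univ_succ]
    refine (norm_mul_le _ _).trans (mul_le_mul (le_cn H k M _ s (by omega)) ?_ (norm_nonneg _)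
      (cn_nonneg _ _ _ _))
    have h1 := ih (s + 1) (fun i => z i.succ) (by omega)
    have e1 : (((s + 1 : ℕ) : ℝ)) * k = s * k + k := by push_cast; ring
    have e2 : ((s + 1 + n : ℕ) : ℝ) = ((s + (n + 1) : ℕ) : ℝ) := by push_cast; ring
    rw [e1, e2] at h1
    exact h1

lemma comm_pow (H G : A) (hG : Commute H G) (a k : ℝ) (n : ℕ) :
    U H (-a) * G ^ n * U H (a + n * k) = (G * U H k) ^ n := by
  have h1 : Commute (U H (-a)) (G ^ n) := (U_comm H G hG (-a)).pow_right n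
  have h2 : Commute G (U H k) := (U_comm H G hG k).symm
  rw [h1.eq, mul_assoc, ← U_add, h2.mul_pow, ← U_natmul]
  congr 2
  ring

lemma conj_pow_sub [Nontrivial A] (H T G : A) (hG : Commute H G) (k : ℝ) (M : ℕ) (δ : ℝ)
    (hδ : 0 ≤ δ) (hT : cn H k M (T * U H k) ≤ 1 + δ) (hD : cn H k M ((T - G) * U H k) ≤ δ)
    (hG1 : ‖G * U H k‖ ≤ 1) : ∀ n s : ℕ, s + n ≤ M →
    ‖U H (-(s * k)) * (T ^ n - G ^ n) * U H (((s + n : ℕ) : ℝ) * k)‖ ≤ (1 + δ) ^ n - 1 := by
  intro n
  induction n with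
  | zero =>
    intro s _
    simp
  | succ n ih =>
    intro s hs
    have e : T ^ (n + 1) - G ^ (n + 1) = T * (T ^ n - G ^ n) + (T - G) * G ^ n := by
      rw [pow_succ', pow_succ']; noncomm_ring
    have e1 : (((s + 1 : ℕ) : ℝ)) * k = s * k + k := by push_cast; ring
    have e2 : ((s + 1 + n : ℕ) : ℝ) = ((s + (n + 1) : ℕ) : ℝ) := by push_cast; ring
    have h1 := ih (s + 1) (by omega)
    rw [e1, e2] at h1
    rw [e, mul_add, add_mul, U_step H T _ (s * k) k, U_step H (T - G) _ (s * k) k]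
    have h2 : U H (-(s * k + k)) * G ^ n * U H (((s + (n + 1) : ℕ) : ℝ) * k) =
        (G * U H k) ^ n := by
      rw [← comm_pow H G hG (s * k + k) k n]
      congr 2
      push_cast
      ring
    rw [h2]
    have h3 : ‖(G * U H k) ^ n‖ ≤ 1 :=
      (norm_pow_le _ _).trans (pow_le_one₀ (norm_nonneg _) hG1)
    calc _ ≤ ‖cj H (s * k) (T * U H k)‖ * ‖U H (-(s * k + k)) * (T ^ n - G ^ n) *
          U H (((s + (n + 1) : ℕ) : ℝ) * k)‖ + ‖cj H (s * k) ((T - G) * U H k)‖ *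
          ‖(G * U H k) ^ n‖ :=
          (norm_add_le _ _).trans (add_le_add (norm_mul_le _ _) (norm_mul_le _ _))
      _ ≤ (1 + δ) * ((1 + δ) ^ n - 1) + δ * 1 := by
          refine add_le_add (mul_le_mul ((le_cn H k M _ s (by omega)).trans hT) h1
            (norm_nonneg _) (by positivity)) ?_
          exact mul_le_mul ((le_cn H k M _ s (by omega)).trans hD) h3 (norm_nonneg _) hδ
      _ = (1 + δ) ^ (n + 1) - 1 := by ring

lemma pow_sub_one_le [Nontrivial A] (V : A) (hV : ‖V‖ ≤ 1) (n : ℕ) :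
    ‖V ^ n - 1‖ ≤ n * ‖V - 1‖ := by
  induction n with
  | zero => simp
  | succ n ih =>
    have e : V ^ (n + 1) - 1 = V * (V ^ n - 1) + (V - 1) := by
      rw [pow_succ']; noncomm_ring
    rw [e]
    calc ‖V * (V ^ n - 1) + (V - 1)‖ ≤ ‖V‖ * ‖V ^ n - 1‖ + ‖V - 1‖ :=
          (norm_add_le _ _).trans (add_le_add (norm_mul_le _ _) le_rfl)
      _ ≤ 1 * (n * ‖V - 1‖) + ‖V - 1‖ :=
          add_le_add (mul_le_mul hV ih (norm_nonneg _) zero_le_one) le_rfl
      _ = ((n + 1 : ℕ) : ℝ) * ‖V - 1‖ := by push_cast; ring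

lemma tm_pos (q : ℕ) : 0 < tm q := by
  induction q with
  | zero => simp [tm]
  | succ q ih => simp only [tm]; omega

/-- The main estimate. -/
theorem slice_abs [Nontrivial A] {N : ℕ} (adj : Fin N → Fin N → Prop) (K : ℕ)
    (hsym : ∀ b b', adj b b' → adj b' b) (hirr : ∀ b, ¬ adj b b) (hK1 : 1 ≤ K)
    (hK : ∀ b, open Classical in (Finset.univ.filter fun b' => adj b b').card ≤ K)
    (h : Fin N → A) (hH : IsSelfAdjoint (∑ b, h b)) (J : ℝ) (hJ : 0 < J) (hh : ∀ b, ‖h b‖ ≤ J)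
    (τ : ℝ) (hτ : 0 < τ)
    (hconj : ∀ s : ℝ, |s| ≤ τ → ∀ b, ‖NormedSpace.exp ((s : ℂ) • ∑ b', h b') * h b *
      NormedSpace.exp (-(s : ℂ) • ∑ b', h b')‖ ≤ 2 * J)
    (q r : ℕ) (y0 : ℝ) (hy0 : y0 = 2 * (τ / tm q) * J) (hy1 : y0 ≤ 1 / 80) (hN : N * y0 ≤ 1 / 4)
    (hM : 2 * tm q * (N * y0) ^ 2 ≤ 1)
    (hr : N * Real.exp (100 * (K + 1) ^ 2 * (1 + tm q * y0) - r / (10 * K * (K + 1) ^ 2)) ≤ 1) :
    ‖KA adj q (fun b => (-((τ / tm q : ℝ) : ℂ)) • h b) r *
      NormedSpace.exp ((τ : ℂ) • ∑ b, h b) - 1‖ ≤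
    6 * (N * Real.exp (100 * (K + 1) ^ 2 * (1 + tm q * y0) - r / (10 * K * (K + 1) ^ 2))) +
      5 * (tm q * (N * y0) ^ 2) := by
  set H : A := ∑ b, h b with hHdef
  set M : ℕ := tm q with hMdef
  have hM0 : (0 : ℝ) < M := by exact_mod_cast tm_pos q
  set k : ℝ := τ / M with hk
  have hk0 : 0 < k := div_pos hτ hM0
  have hkM : (M : ℝ) * k = τ := by rw [hk]; field_simp
  have hy00 : 0 ≤ y0 := by rw [hy0]; positivity
  set y : Fin N → A := fun b => (-((k : ℝ) : ℂ)) • h b with hy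
  set B : A := (k : ℂ) • H with hB
  have hBs : IsSelfAdjoint B := by
    have : B = k • H := by rw [hB]; exact Complex.coe_smul k H
    rw [this]
    exact (IsSelfAdjoint.all k).smul hH
  have hBn : ‖B‖ ≤ N * y0 / 2 := by
    rw [hB, norm_smul, Complex.norm_real, Real.norm_eq_abs, abs_of_pos hk0]
    have h1 : ‖H‖ ≤ N * J := by
      rw [hHdef]
      refine (norm_sum_le _ _).trans ?_
      calc ∑ b, ‖h b‖ ≤ ∑ _b : Fin N, J := Finset.sum_le_sum fun b _ => hh b
        _ = N * J := by simp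
    calc k * ‖H‖ ≤ k * (N * J) := mul_le_mul_of_nonneg_left h1 hk0.le
      _ = N * y0 / 2 := by rw [hy0]; ring
  obtain ⟨b1, b2, b3⟩ := spec_small B hBs (N * y0 / 2) (by linarith) hBn
  have hUk : U H k = NormedSpace.exp B := rfl
  have hUτ : U H τ = U H k ^ M := by rw [← U_natmul, hkM]
  have hyB : 1 + ∑ b, y b = 1 - B := by
    rw [hy, hB, hHdef]
    simp only []
    rw [← Finset.smul_sum, neg_smul, sub_eq_add_neg]
  set G : A := 1 - B with hGdef
  have hHB : Commute H B := (Commute.refl H).smul_right _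
  have hHG : Commute H G := (Commute.one_right H).sub_right hHB
  have hHU : Commute H (U H k) := (U_comm H H (Commute.refl H) k).symm
  have hHGU : Commute H (G * U H k) := hHG.mul_right hHU
  set T : A := op fun b => 1 + y b with hT
  obtain ⟨a1, a2⟩ := ka_abs (cR H k M) (by
      show cn H k M 1 = 1
      rw [cn_of_comm H 1 (Commute.one_right H), norm_one]) adj K hsym hirr hK1 hK q r
    (fun a => cn H k M (a * U H k)) (fun X => ‖X * U H τ‖)
    (fun a => cn_nonneg _ _ _ _)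
    (fun a b => by
      simp only [add_mul]
      exact cn_add _ _ _ _ _)
    (fun a => by
      refine (cn_mul _ _ _ _ _).trans ?_
      rw [cn_of_comm H (U H k) hHU, mul_comm]
      exact mul_le_mul_of_nonneg_right b1 (cn_nonneg _ _ _ _))
    (by simp)
    (fun a b => by
      simp only [add_mul]
      exact norm_add_le _ _)
    (fun a => by simp)
    (fun z => by
      rw [one_mul]
      have h1 := conj_op H k M M 0 z (by omega)
      simpa [U_zero, hkM] using h1)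
    y y0 hy00 hy1
    (fun b => by
      show cn H k M (y b) ≤ y0
      apply cn_le
      intro t ht
      have ht' : (t : ℝ) * k ≤ τ := by
        rw [← hkM]
        exact mul_le_mul_of_nonneg_right (by exact_mod_cast ht) hk0.le
      have ht0 : 0 ≤ (t : ℝ) * k := by positivity
      have h1 := hconj (-((t : ℝ) * k)) (by rw [abs_neg, abs_of_nonneg ht0]; exact ht') b
      have h2 : cj H (t * k) (y b) = (-((k : ℝ) : ℂ)) • cj H (t * k) (h b) := by
        simp only [cj, hy, mul_smul_comm, smul_mul_assoc]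
      have h3 : cj H (t * k) (h b) = NormedSpace.exp (((-((t : ℝ) * k) : ℝ) : ℂ) • H) * h b *
          NormedSpace.exp (-((-((t : ℝ) * k) : ℝ) : ℂ) • H) := by
        unfold cj U
        congr 3
        push_cast
        ring
      rw [h2, norm_smul, norm_neg, Complex.norm_real, Real.norm_eq_abs, abs_of_pos hk0, h3]
      calc _ ≤ k * (2 * J) := mul_le_mul_of_nonneg_left h1 hk0.le
        _ = y0 := by rw [hy0]; ring)
    (by
      show cn H k M ((1 + ∑ b, y b) * U H k) ≤ 1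
      rw [hyB, cn_of_comm H _ hHGU]
      exact b2) hN hM hr
  rw [hyB] at a2
  have hGU : ‖G * U H k‖ ≤ 1 := b2
  have hGc : cn H k M (G * U H k) ≤ 1 := by
    rw [cn_of_comm H _ hHGU]
    exact hGU
  set δ : ℝ := 4 / 3 * (N * y0) ^ 2 with hδ
  have hδ0 : 0 ≤ δ := by positivity
  have hTc : cn H k M (T * U H k) ≤ 1 + δ := by
    have e : T * U H k = (T - G) * U H k + G * U H k := by noncomm_ring
    rw [e]
    refine (cn_add _ _ _ _ _).trans ?_
    linarith
  have c1 : ‖(T ^ M - G ^ M) * U H τ‖ ≤ (1 + δ) ^ M - 1 := by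
    have h1 := conj_pow_sub H T G hHG k M δ hδ0 hTc a2 hGU M 0 (by omega)
    simpa [U_zero, hkM] using h1
  have c2 : (1 + δ) ^ M - 1 ≤ 2 * (M * δ) := by
    have h1 : (1 + δ) ^ M ≤ Real.exp (M * δ) := by
      rw [Real.exp_nat_mul]
      exact pow_le_pow_left₀ (by positivity) (by linarith [Real.add_one_le_exp δ]) M
    have h2 : (M : ℝ) * δ ≤ 1 := by
      rw [hδ]
      nlinarith
    have h3 := exp_bd2 (u := M * δ) (by positivity) h2
    linarith
  have c3 : ‖G ^ M * U H τ - 1‖ ≤ M * (N * y0 / 2) ^ 2 := by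
    have h1 : G ^ M * U H τ = (G * U H k) ^ M := by
      rw [hUτ, (U_comm H G hHG k).symm.mul_pow]
    rw [h1]
    refine (pow_sub_one_le _ hGU M).trans ?_
    exact mul_le_mul_of_nonneg_left b3 hM0.le
  have hfin : KA adj q y r * U H τ - 1 = (KA adj q y r - T ^ M) * U H τ +
      (T ^ M - G ^ M) * U H τ + (G ^ M * U H τ - 1) := by noncomm_ring
  have hgoal : KA adj q (fun b => (-((k : ℝ) : ℂ)) • h b) r *
      NormedSpace.exp ((τ : ℂ) • H) - 1 = KA adj q y r * U H τ - 1 := rfl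
  rw [hgoal, hfin]
  have d1 := norm_add₃_le (a := (KA adj q y r - T ^ M) * U H τ)
    (b := (T ^ M - G ^ M) * U H τ) (c := G ^ M * U H τ - 1)
  have hq : 0 ≤ (M : ℝ) * (N * y0) ^ 2 := by positivity
  have e3 : (M : ℝ) * (N * y0 / 2) ^ 2 = (M * (N * y0) ^ 2) / 4 := by ring
  have e4 : 2 * ((M : ℝ) * δ) = 8 / 3 * (M * (N * y0) ^ 2) := by rw [hδ]; ring
  rw [e3] at c3
  rw [e4] at c2
  linarith

end cst

open scoped Matrix.Norms.L2Operator in
theorem sliceNorm (h : Pool.Agent.N658.TP.StmConj) : Pool.Agent.N658.TP.StmSliceNorm := by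
  intro n _ _ _ N adj K hsym hirr hK1 hK hb hH hcomm J hJ hbJ τ hτ hτ1 q r y0 hy0 hy1 hN hM hr
  refine slice_abs adj K hsym hirr hK1 (fun b => ?_) hb hH J hJ hbJ τ hτ ?_ q r y0 hy0 hy1 hN hM hr
  · convert hK b
  · intro s hs b
    exact h n N adj K hK1 hK hb hcomm J hJ hbJ s (hs.trans hτ1) b

end Pool.Agent.N767.TP
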